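import Pool.Agent.Helper25.KV.Goals

/-!
# Project KV (`MP_66be51_an`): `H_WEAK → H_TEQ` (equicontinuity in time)
-/

namespace Pool.Agent.Helper25.KV

open Real MeasureTheory Set Filter Topology
open scoped ENNReal
open Pool.Agent.Helper41.KV (Q)
open Pool.Agent.Helper33.KV (SmoothSol outr)

namespace H31

/-- A function which vanishes off `[x-ε,x+ε]` and is bounded by `K` there. -/
lemma abs_integral_le {f : ℝ → ℝ} {x ε K : ℝ} (hε : 0 ≤ ε) (h0 : ∀ y, ε < |y - x| → f y = 0)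
    (hK : ∀ y, |y - x| ≤ ε → |f y| ≤ K) : |∫ y, f y| ≤ K * (2 * ε) := by
  have h1 : ∫ y, f y = ∫ y in Icc (x - ε) (x + ε), f y := by
    symm
    apply setIntegral_eq_integral_of_forall_compl_eq_zero
    intro y hy
    apply h0
    by_contra hcon
    push Not at hcon
    apply hy
    rw [abs_le] at hcon
    constructor <;> linarith [hcon.1, hcon.2]
  rw [h1]
  have h2 := norm_setIntegral_le_of_norm_le_const (μ := volume) (s := Icc (x - ε) (x + ε))
    (f := f) (C := K) (by simp) (by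
      intro y hy
      rw [Real.norm_eq_abs]
      apply hK
      rw [abs_le]
      constructor <;> linarith [hy.1, hy.2])
  rw [Real.norm_eq_abs] at h2
  have h3 : volume.real (Icc (x - ε) (x + ε)) = 2 * ε := by
    rw [Real.volume_real_Icc_of_le (by linarith)]
    ring
  rw [h3] at h2
  exact h2

/-- The basic mollifier. -/
lemma exists_mollifier : ∃ (ψ : ℝ → ℝ) (D : ℝ), 0 ≤ D ∧ ContDiff ℝ (⊤ : ℕ∞) ψ ∧
    (∀ y, 1 < |y| → ψ y = 0) ∧ (∀ y, 1 < |y| → deriv ψ y = 0) ∧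
    (∀ y, 1 < |y| → iteratedDeriv 3 ψ y = 0) ∧ (∫ y, ψ y) = 1 ∧
    (∀ y, |ψ y| ≤ D) ∧ (∀ y, |deriv ψ y| ≤ D) ∧ (∀ y, |iteratedDeriv 3 ψ y| ≤ D) := by
  let f : ContDiffBump (0 : ℝ) := ⟨1 / 2, 1, by norm_num, by norm_num⟩
  let ψ : ℝ → ℝ := f.normed volume
  have hs : ContDiff ℝ (⊤ : ℕ∞) ψ := f.contDiff_normed
  have hc : HasCompactSupport ψ := f.hasCompactSupport_normed
  have hint : (∫ y, ψ y) = 1 := f.integral_normed
  have hts : tsupport ψ = Metric.closedBall 0 1 := f.tsupport_normed_eq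
  have h0 : ∀ k : ℕ, ∀ y, 1 < |y| → iteratedDeriv k ψ y = 0 := by
    intro k y hy
    have hopen : IsOpen (tsupport ψ)ᶜ := (isClosed_tsupport ψ).isOpen_compl
    have hmem : y ∈ (tsupport ψ)ᶜ := by
      rw [hts]
      simp only [mem_compl_iff, Metric.mem_closedBall, dist_zero_right, Real.norm_eq_abs, not_le]
      exact hy
    have hev : ψ =ᶠ[𝓝 y] fun _ => 0 := by
      filter_upwards [hopen.mem_nhds hmem] with z hz
      exact image_eq_zero_of_notMem_tsupport hz
    rw [hev.iteratedDeriv_eq k]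
    simp
  have hb : ∀ k : ℕ, ∃ D : ℝ, ∀ y, |iteratedDeriv k ψ y| ≤ D := by
    intro k
    have hcont : Continuous (iteratedDeriv k ψ) := hs.continuous_iteratedDeriv k (by exact_mod_cast le_top)
    obtain ⟨D, hD⟩ := (isCompact_Icc (a := (-1 : ℝ)) (b := 1)).exists_bound_of_continuousOn
      hcont.continuousOn
    refine ⟨max D 0, fun y => ?_⟩
    by_cases hy : |y| ≤ 1
    · have := hD y (abs_le.mp hy)
      rw [Real.norm_eq_abs] at this
      exact this.trans (le_max_left _ _)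
    · push Not at hy
      rw [h0 k y hy]
      simp
  obtain ⟨D0, hD0⟩ := hb 0
  obtain ⟨D1, hD1⟩ := hb 1
  obtain ⟨D3, hD3⟩ := hb 3
  have hD0' : 0 ≤ D0 := (abs_nonneg _).trans (hD0 0)
  have hD1' : 0 ≤ D1 := (abs_nonneg _).trans (hD1 0)
  have hD3' : 0 ≤ D3 := (abs_nonneg _).trans (hD3 0)
  refine ⟨ψ, D0 + D1 + D3, by positivity, hs, ?_, ?_, h0 3, hint, ?_, ?_, ?_⟩
  · intro y hy
    simpa [iteratedDeriv_zero] using h0 0 y hy
  · intro y hy
    simpa [iteratedDeriv_one] using h0 1 y hy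
  · intro y
    have := hD0 y
    simp only [iteratedDeriv_zero] at this
    linarith
  · intro y
    have := hD1 y
    simp only [iteratedDeriv_one] at this
    linarith
  · intro y
    have := hD3 y
    linarith

/-- The scaled mollifier `θ(y) = c ψ(c (y - x))`. -/
lemma scaled {ψ : ℝ → ℝ} (hψ : ContDiff ℝ (⊤ : ℕ∞) ψ) (c x : ℝ) :
    ContDiff ℝ (⊤ : ℕ∞) (fun y => c * ψ (c * (y - x))) ∧
    (∀ y, deriv (fun y => c * ψ (c * (y - x))) y = c ^ 2 * deriv ψ (c * (y - x))) ∧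
    (∀ y, iteratedDeriv 3 (fun y => c * ψ (c * (y - x))) y =
      c ^ 4 * iteratedDeriv 3 ψ (c * (y - x))) := by
  have hder : ∀ (g : ℝ → ℝ), Differentiable ℝ g → ∀ A y : ℝ,
      HasDerivAt (fun y => A * g (c * (y - x))) (A * c * deriv g (c * (y - x))) y := by
    intro g hg A y
    have h1 : HasDerivAt (fun y : ℝ => c * (y - x)) (c * 1) y :=
      ((hasDerivAt_id y).sub_const x).const_mul c
    have h2 := (hg (c * (y - x))).hasDerivAt.comp y h1
    have h3 := h2.const_mul A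
    have h4 : A * (deriv g (c * (y - x)) * (c * 1)) = A * c * deriv g (c * (y - x)) := by ring
    rw [h4] at h3
    exact h3
  have hd0 : Differentiable ℝ ψ := hψ.differentiable (by simp)
  have hd1 : Differentiable ℝ (deriv ψ) := by
    have := hψ.differentiable_iteratedDeriv 1 (by exact_mod_cast ENat.natCast_lt_top 1)
    simpa [iteratedDeriv_one] using this
  have hd2 : Differentiable ℝ (deriv (deriv ψ)) := by
    have := hψ.differentiable_iteratedDeriv 2 (WithTop.coe_lt_coe.mpr (ENat.natCast_lt_top 2))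
    rw [iteratedDeriv_succ, iteratedDeriv_one] at this
    exact this
  have e1 : deriv (fun y => c * ψ (c * (y - x))) = fun y => c * c * deriv ψ (c * (y - x)) := by
    funext y; exact (hder ψ hd0 c y).deriv
  have e2 : deriv (fun y => c * c * deriv ψ (c * (y - x))) =
      fun y => c * c * c * deriv (deriv ψ) (c * (y - x)) := by
    funext y; exact (hder _ hd1 (c * c) y).deriv
  have e3 : deriv (fun y => c * c * c * deriv (deriv ψ) (c * (y - x))) =
      fun y => c * c * c * c * deriv (deriv (deriv ψ)) (c * (y - x)) := by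
    funext y; exact (hder _ hd2 (c * c * c) y).deriv
  refine ⟨?_, ?_, ?_⟩
  · exact contDiff_const.mul (hψ.comp (contDiff_const.mul (contDiff_id.sub contDiff_const)))
  · intro y
    rw [e1]
    ring
  · intro y
    have : iteratedDeriv 3 (fun y => c * ψ (c * (y - x))) =
        deriv (deriv (deriv (fun y => c * ψ (c * (y - x))))) := by
      rw [iteratedDeriv_succ, iteratedDeriv_succ, iteratedDeriv_one]
    rw [this, e1, e2, e3]
    have : iteratedDeriv 3 ψ = deriv (deriv (deriv ψ)) := by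
      rw [iteratedDeriv_succ, iteratedDeriv_succ, iteratedDeriv_one]
    rw [this]
    ring

/-- Replacing the value at `x` by the mollified value. -/
lemma moll_close {ψ : ℝ → ℝ} {D : ℝ} (hψ : ContDiff ℝ (⊤ : ℕ∞) ψ) (_hD : 0 ≤ D)
    (h0 : ∀ y, 1 < |y| → ψ y = 0) (hint : (∫ y, ψ y) = 1) (hb : ∀ y, |ψ y| ≤ D)
    {v : ℝ → ℝ} (hv : Continuous v) {x d M : ℝ} (hd : 0 < d) (hd1 : d ≤ 1) (hM : 0 < M)
    (hol : ∀ y, |y - x| ≤ 1 → |v y - v x| ≤ M * |y - x| ^ ((1 : ℝ) / 2)) :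
    |(∫ y, v y * ((d ^ 2)⁻¹ * ψ ((d ^ 2)⁻¹ * (y - x)))) - v x| ≤ 2 * M * D * d := by
  have hd2 : 0 < d ^ 2 := by positivity
  have hvan : ∀ y, d ^ 2 < |y - x| → ψ ((d ^ 2)⁻¹ * (y - x)) = 0 := by
    intro y hy
    apply h0
    rw [abs_mul, abs_of_pos (inv_pos.mpr hd2), inv_mul_eq_div, lt_div_iff₀ hd2, one_mul]
    exact hy
  have hcs : HasCompactSupport (fun y => (d ^ 2)⁻¹ * ψ ((d ^ 2)⁻¹ * (y - x))) := by
    apply HasCompactSupport.intro (isCompact_Icc (a := x - d ^ 2) (b := x + d ^ 2))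
    intro y hy
    rw [hvan y, mul_zero]
    by_contra hcon
    push Not at hcon
    apply hy
    rw [abs_le] at hcon
    constructor <;> linarith [hcon.1, hcon.2]
  have hθc : Continuous (fun y => (d ^ 2)⁻¹ * ψ ((d ^ 2)⁻¹ * (y - x))) :=
    (scaled hψ ((d ^ 2)⁻¹) x).1.continuous
  have hone : ∫ y, (d ^ 2)⁻¹ * ψ ((d ^ 2)⁻¹ * (y - x)) = 1 := by
    rw [integral_const_mul]
    have h1 : (∫ y, ψ ((d ^ 2)⁻¹ * (y - x))) = ∫ y, ψ ((d ^ 2)⁻¹ * y) :=
      integral_sub_right_eq_self (fun y => ψ ((d ^ 2)⁻¹ * y)) x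
    rw [h1, Measure.integral_comp_mul_left, hint, inv_inv, abs_of_pos hd2]
    simp only [smul_eq_mul, mul_one]
    exact inv_mul_cancel₀ hd2.ne'
  have i1 : Integrable (fun y => v y * ((d ^ 2)⁻¹ * ψ ((d ^ 2)⁻¹ * (y - x)))) := by
    apply (hv.mul hθc).integrable_of_hasCompactSupport
    exact hcs.mul_left
  have i2 : Integrable (fun y => v x * ((d ^ 2)⁻¹ * ψ ((d ^ 2)⁻¹ * (y - x)))) := by
    apply (continuous_const.mul hθc).integrable_of_hasCompactSupport
    exact hcs.mul_left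
  have e1 : (∫ y, v y * ((d ^ 2)⁻¹ * ψ ((d ^ 2)⁻¹ * (y - x)))) - v x =
      ∫ y, (v y - v x) * ((d ^ 2)⁻¹ * ψ ((d ^ 2)⁻¹ * (y - x))) := by
    have : v x = ∫ y, v x * ((d ^ 2)⁻¹ * ψ ((d ^ 2)⁻¹ * (y - x))) := by
      rw [integral_const_mul, hone, mul_one]
    conv_lhs => rw [this]
    rw [← integral_sub i1 i2]
    congr 1
    funext y
    ring
  rw [e1]
  have h2 := abs_integral_le (f := fun y => (v y - v x) * ((d ^ 2)⁻¹ * ψ ((d ^ 2)⁻¹ * (y - x))))
    (x := x) (ε := d ^ 2) (K := M * d * ((d ^ 2)⁻¹ * D)) hd2.le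
    (fun y hy => by simp only [hvan y hy, mul_zero]) (by
      intro y hy
      have hy1 : |y - x| ≤ 1 := hy.trans (by nlinarith)
      rw [abs_mul, abs_mul, abs_of_pos (inv_pos.mpr hd2)]
      have a1 := hol y hy1
      have a2 : |y - x| ^ ((1 : ℝ) / 2) ≤ d := by
        have : |y - x| ^ ((1 : ℝ) / 2) ≤ (d ^ 2) ^ ((1 : ℝ) / 2) :=
          Real.rpow_le_rpow (abs_nonneg _) hy (by norm_num)
        rw [← Real.sqrt_eq_rpow (d ^ 2), Real.sqrt_sq hd.le] at this
        exact this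
      have a3 : |v y - v x| ≤ M * d := a1.trans (mul_le_mul_of_nonneg_left a2 hM.le)
      have a4 : (d ^ 2)⁻¹ * |ψ ((d ^ 2)⁻¹ * (y - x))| ≤ (d ^ 2)⁻¹ * D :=
        mul_le_mul_of_nonneg_left (hb _) (inv_pos.mpr hd2).le
      exact mul_le_mul a3 a4 (by positivity) (by positivity))
  refine h2.trans (le_of_eq ?_)
  field_simp

end H31

open H31 in
/-- **TEQ.** Equicontinuity in time of smooth solutions. -/
theorem thm_TEQ (hW : H_WEAK) : H_TEQ := by
  obtain ⟨ψ, D, hD, hψ, z0, z1, z3, hint, b0, b1, b3⟩ := exists_mollifier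
  intro M hM
  refine ⟨4 * M * D + 2 * (M * D + M ^ 5 * D) + 1, by positivity, ?_⟩
  intro a b u hu R hR hbd hol s hs t ht hts x hx
  rcases eq_or_ne t s with rfl | hne
  · simp only [sub_self, abs_zero]
    positivity
  set d : ℝ := |t - s| ^ ((1 : ℝ) / 7) with hd
  have hτ : 0 < |t - s| := abs_pos.mpr (sub_ne_zero.mpr hne)
  have hdpos : 0 < d := Real.rpow_pos_of_pos hτ _
  have hd1 : d ≤ 1 := Real.rpow_le_one hτ.le hts (by norm_num)
  have hd7 : d ^ 7 = |t - s| := by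
    rw [hd, ← Real.rpow_natCast, ← Real.rpow_mul hτ.le]
    norm_num
  have hd2 : 0 < d ^ 2 := by positivity
  have hd2le : d ^ 2 ≤ 1 := by nlinarith
  set θ : ℝ → ℝ := fun y => (d ^ 2)⁻¹ * ψ ((d ^ 2)⁻¹ * (y - x)) with hθ
  obtain ⟨hθs, hθ1, hθ3⟩ := scaled hψ ((d ^ 2)⁻¹) x
  have hgt : ∀ y, d ^ 2 < |y - x| → 1 < |(d ^ 2)⁻¹ * (y - x)| := by
    intro y hy
    rw [abs_mul, abs_of_pos (inv_pos.mpr hd2), inv_mul_eq_div, lt_div_iff₀ hd2, one_mul]
    exact hy
  have hcs : HasCompactSupport θ := by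
    apply HasCompactSupport.intro (isCompact_Icc (a := x - d ^ 2) (b := x + d ^ 2))
    intro y hy
    have : ψ ((d ^ 2)⁻¹ * (y - x)) = 0 := by
      apply z0
      apply hgt
      by_contra hcon
      push Not at hcon
      apply hy
      rw [abs_le] at hcon
      constructor <;> linarith [hcon.1, hcon.2]
    simp only [hθ, this, mul_zero]
  have hnear : ∀ y, |y - x| ≤ 1 → |y| ≤ R + 1 := by
    intro y hy
    have : |y| ≤ |y - x| + |x| := by
      have := abs_add_le (y - x) x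
      simpa using this
    linarith
  have hxR : |x| ≤ R + 1 := by linarith
  have hcont : ∀ r ∈ Icc a b, Continuous (u r) := fun r hr => (hu.hinf.smooth r hr).continuous
  -- the two mollification errors
  have c1 : ∀ r ∈ Icc a b, |(∫ y, u r y * θ y) - u r x| ≤ 2 * M * D * d := by
    intro r hr
    exact moll_close hψ hD z0 hint b0 (hcont r hr) hdpos hd1 hM
      (fun y hy => hol r hr y x (hnear y hy) hxR)
  -- the weak equation
  have hweak := hW a b u hu θ hθs hcs s hs t ht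
  have hin : ∀ r ∈ uIoc s t, ‖∫ y, (u r y * iteratedDeriv 3 θ y + u r y ^ 5 * deriv θ y)‖ ≤
      2 * (M * D + M ^ 5 * D) * (d ^ 6)⁻¹ := by
    intro r hr
    have hrI : r ∈ Icc a b := by
      have : uIoc s t ⊆ Icc a b := by
        intro z hz
        have hz' : z ∈ uIcc s t := uIoc_subset_uIcc hz
        exact (uIcc_subset_Icc hs ht) hz'
      exact this hr
    rw [Real.norm_eq_abs]
    have hK := abs_integral_le
      (f := fun y => u r y * iteratedDeriv 3 θ y + u r y ^ 5 * deriv θ y)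
      (x := x) (ε := d ^ 2) (K := (M * D + M ^ 5 * D) * ((d ^ 2)⁻¹) ^ 4) hd2.le
      (by
        intro y hy
        have h1 : deriv θ y = 0 := by rw [hθ1 y, z1 _ (hgt y hy), mul_zero]
        have h3 : iteratedDeriv 3 θ y = 0 := by rw [hθ3 y, z3 _ (hgt y hy), mul_zero]
        simp only [h1, h3, mul_zero, add_zero])
      (by
        intro y hy
        have hy1 : |y - x| ≤ 1 := hy.trans hd2le
        have hub := hbd r hrI y (hnear y hy1)
        have hinv : 1 ≤ (d ^ 2)⁻¹ := (one_le_inv₀ hd2).mpr hd2le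
        have p4 : ((d ^ 2)⁻¹) ^ 2 ≤ ((d ^ 2)⁻¹) ^ 4 := pow_le_pow_right₀ hinv (by norm_num)
        have q3 : |u r y * iteratedDeriv 3 θ y| ≤ M * D * ((d ^ 2)⁻¹) ^ 4 := by
          rw [hθ3 y, abs_mul, abs_mul, abs_of_nonneg (by positivity : (0:ℝ) ≤ ((d ^ 2)⁻¹) ^ 4)]
          calc |u r y| * (((d ^ 2)⁻¹) ^ 4 * |iteratedDeriv 3 ψ ((d ^ 2)⁻¹ * (y - x))|)
              ≤ M * (((d ^ 2)⁻¹) ^ 4 * D) :=
                mul_le_mul hub (mul_le_mul_of_nonneg_left (b3 _) (by positivity))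
                  (by positivity) hM.le
            _ = M * D * ((d ^ 2)⁻¹) ^ 4 := by ring
        have q1 : |u r y ^ 5 * deriv θ y| ≤ M ^ 5 * D * ((d ^ 2)⁻¹) ^ 4 := by
          rw [hθ1 y, abs_mul, abs_mul, abs_pow,
            abs_of_nonneg (by positivity : (0:ℝ) ≤ ((d ^ 2)⁻¹) ^ 2)]
          calc |u r y| ^ 5 * (((d ^ 2)⁻¹) ^ 2 * |deriv ψ ((d ^ 2)⁻¹ * (y - x))|)
              ≤ M ^ 5 * (((d ^ 2)⁻¹) ^ 4 * D) :=
                mul_le_mul (pow_le_pow_left₀ (abs_nonneg _) hub 5)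
                  (mul_le_mul p4 (b1 _) (abs_nonneg _) (by positivity))
                  (by positivity) (by positivity)
            _ = M ^ 5 * D * ((d ^ 2)⁻¹) ^ 4 := by ring
        calc |u r y * iteratedDeriv 3 θ y + u r y ^ 5 * deriv θ y|
            ≤ |u r y * iteratedDeriv 3 θ y| + |u r y ^ 5 * deriv θ y| := abs_add_le _ _
          _ ≤ M * D * ((d ^ 2)⁻¹) ^ 4 + M ^ 5 * D * ((d ^ 2)⁻¹) ^ 4 := add_le_add q3 q1
          _ = (M * D + M ^ 5 * D) * ((d ^ 2)⁻¹) ^ 4 := by ring)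
    refine hK.trans (le_of_eq ?_)
    field_simp
  have hI := intervalIntegral.norm_integral_le_of_norm_le_const hin
  rw [Real.norm_eq_abs, ← hweak] at hI
  have hI2 : 2 * (M * D + M ^ 5 * D) * (d ^ 6)⁻¹ * |t - s| = 2 * (M * D + M ^ 5 * D) * d := by
    rw [← hd7]
    field_simp
  rw [hI2] at hI
  have k1 := c1 t ht
  have k2 := c1 s hs
  have key : |u t x - u s x| ≤ |(∫ y, u t y * θ y) - u t x| +
      |(∫ y, u s y * θ y) - u s x| + |(∫ y, u t y * θ y) - ∫ y, u s y * θ y| := by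
    have e : u t x - u s x = -((∫ y, u t y * θ y) - u t x) + ((∫ y, u s y * θ y) - u s x) +
        ((∫ y, u t y * θ y) - ∫ y, u s y * θ y) := by ring
    rw [e]
    refine (abs_add_le _ _).trans ?_
    refine add_le_add ((abs_add_le _ _).trans ?_) le_rfl
    rw [abs_neg]
  calc |u t x - u s x| ≤ 2 * M * D * d + 2 * M * D * d + 2 * (M * D + M ^ 5 * D) * d :=
        key.trans (add_le_add (add_le_add k1 k2) hI)
    _ ≤ (4 * M * D + 2 * (M * D + M ^ 5 * D) + 1) * d := by nlinarith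

end Pool.Agent.Helper25.KV
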