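import Pool.Agent.Helper48.KV.GoalsJ

/-!
# PROJECT KV (MP_66be51_an), section G5, packet SCL: scaling relations for small times
-/

open MeasureTheory Set Filter Topology

namespace Pool.Agent.Helper31.KV

open Pool.Agent.Helper33.KV Pool.Agent.Helper41.KV Pool.Agent.Helper48.KV

/-- **SCL.** Scaling relations for small times. -/
theorem scl : S_SCL := by
  intro α t hα0 hα1 ht hβt
  set β : ℝ := 4 * α + 3 with hβ
  have hβ3 : 3 < β := by rw [hβ]; linarith
  have hβ7 : β < 7 := by rw [hβ]; linarith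
  have hβ0 : 0 < β := by linarith
  have hbt : 0 < β * t := by positivity
  have hsdef : sig α t = (β * t) ^ (1 / β) := rfl
  set s : ℝ := sig α t with hs
  have hl : lam α t = s ^ (2 * α + 1) := rfl
  have hr : rho α t = s ^ (2 * α) := rfl
  have hs0 : 0 < s := by rw [hsdef]; exact Real.rpow_pos_of_pos hbt _
  have hs1 : s ≤ 1 := by
    rw [hsdef]; exact Real.rpow_le_one hbt.le hβt (by positivity)
  have hsβ : s ^ β = β * t := by
    rw [hsdef, ← Real.rpow_mul hbt.le, one_div, inv_mul_cancel₀ hβ0.ne', Real.rpow_one]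
  have hl0 : 0 < lam α t := by rw [hl]; exact Real.rpow_pos_of_pos hs0 _
  have hr0 : 0 < rho α t := by rw [hr]; exact Real.rpow_pos_of_pos hs0 _
  have hl1 : lam α t ≤ 1 := by rw [hl]; exact Real.rpow_le_one hs0.le hs1 (by linarith)
  have hr1 : rho α t ≤ 1 := by rw [hr]; exact Real.rpow_le_one hs0.le hs1 (by linarith)
  have hlr : lam α t = rho α t * s := by
    rw [hl, hr, Real.rpow_add hs0, Real.rpow_one]
  have hl2 : lam α t ^ 2 * s = β * t := by
    have h1 : lam α t ^ 2 = s ^ (4 * α + 2) := by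
      rw [hl, ← Real.rpow_natCast (s ^ (2 * α + 1)) 2, ← Real.rpow_mul hs0.le]
      congr 1
      push_cast
      ring
    rw [h1, ← hsβ]
    conv_lhs => rw [← Real.rpow_one s]
    rw [← Real.rpow_mul hs0.le, one_mul, ← Real.rpow_add hs0]
    congr 1
    rw [hβ]; ring
  refine ⟨hs0, hs1, hl0, hl1, hr0, hr1, ?_, hlr, ?_, ?_, ?_, ?_⟩
  · rw [hlr]; nlinarith
  · rw [div_eq_div_iff (by positivity) hβ0.ne']
    linarith
  · have h1 : β * t ≤ lam α t ^ 2 := by
      rw [← hl2]
      have : 0 ≤ lam α t ^ 2 := by positivity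
      nlinarith
    nlinarith
  · rw [div_eq_div_iff (by positivity) (by positivity), ← hl2]
    rw [show rho α t * (lam α t ^ 2 * s) = lam α t ^ 2 * (rho α t * s) by ring, ← hlr]
    ring
  · intro κ hκ hκ2
    have ht1 : t ≤ 1 := by nlinarith
    have hexp : 0 ≤ 2 * α / β := by positivity
    have h1 : rho α t = (β * t) ^ (2 * α / β) := by
      rw [hr, hsdef, ← Real.rpow_mul hbt.le]
      congr 1
      ring
    rw [h1, Real.mul_rpow hβ0.le ht.le]
    have h2 : β ^ (2 * α / β) ≤ 7 := by
      have : 2 * α / β ≤ 1 := by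
        rw [div_le_one hβ0, hβ]
        linarith
      calc β ^ (2 * α / β) ≤ β ^ (1 : ℝ) :=
            Real.rpow_le_rpow_of_exponent_le (by linarith) this
        _ = β := Real.rpow_one β
        _ ≤ 7 := hβ7.le
    have h3 : t ^ (2 * α / β) ≤ t ^ (4 * κ) :=
      Real.rpow_le_rpow_of_exponent_ge ht ht1 hκ2
    exact mul_le_mul h2 h3 (Real.rpow_nonneg ht.le _) (by norm_num)

end Pool.Agent.Helper31.KV
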