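import Pool.Agent.Helper41.KV.GoalsD

/-!
# Project KV (`MP_66be51_an`), packet VREP: two representations of `vin`
-/

namespace Pool.Agent.Helper41.KV

open Real MeasureTheory Pool.Agent.Helper33.KV

namespace H31

lemma chL_one {s : ℝ} (h : -1 ≤ s) : chL s = 1 :=
  Real.smoothTransition.one_of_one_le (by linarith)

lemma chL_zero {s : ℝ} (h : s ≤ -2) : chL s = 0 :=
  Real.smoothTransition.zero_of_nonpos (by linarith)

lemma chO_one {x : ℝ} (h1 : -(1 / 2) ≤ x) (h2 : x ≤ 1 / 2) : chO x = 1 := by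
  unfold chO
  rw [Real.smoothTransition.one_of_one_le (by linarith),
    Real.smoothTransition.one_of_one_le (by linarith), mul_one]

end H31

open H31 in
/-- **VREP.** Two representations of `vin`. -/
theorem thm_VREP (hI : S_INNR) (hC : S_CURV) : S_VREP := by
  intro α J n R P h0 h1 h2 h3 p c1 a0 ω2 ω3 e3 w hD θ hθ0 hθ1
  obtain ⟨hcurv, -, -, -, hsmall, -⟩ := hC α hD.a_pos hD.a_lt
  obtain ⟨T, hT, hTs⟩ := hsmall (1 / 16) (by norm_num)
  refine ⟨T, hT, ?_⟩
  intro t ht0 htT
  obtain ⟨hσ, -, hρ⟩ := hTs t ht0 htT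
  obtain ⟨hσ0, hl0, hρ0, hle0, -⟩ := hcurv t ht0
  have hρ1 : rho α t ≤ 1 := by linarith
  have hq : rho α t ^ ((1 : ℝ) / 2) ≤ 1 / 4 := by
    have h := Real.rpow_le_rpow hρ0.le hρ.le (by norm_num : (0 : ℝ) ≤ 1 / 2)
    have e : ((1 : ℝ) / 16) ^ ((1 : ℝ) / 2) = 1 / 4 := by
      rw [← Real.sqrt_eq_rpow, show (1 : ℝ) / 16 = (1 / 4) ^ 2 by norm_num,
        Real.sqrt_sq (by norm_num)]
    rw [e] at h
    exact h
  have hp1 : rho α t ^ (1 - θ) ≤ 1 / 4 :=
    (Real.rpow_le_rpow_of_exponent_ge hρ0 hρ1 (by linarith)).trans hq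
  have hθpos : 0 < rho α t ^ θ := Real.rpow_pos_of_pos hρ0 θ
  have hle : rho α t ^ ((1 : ℝ) / 2) ≤ rho α t ^ θ :=
    Real.rpow_le_rpow_of_exponent_ge hρ0 hρ1 (by linarith)
  refine ⟨by linarith, by linarith, ?_, ?_⟩
  · intro y hy
    by_cases hc : rho α t ^ θ * y ≤ -2
    · simp only [vin, chL_zero hc]
      ring
    · push Not at hc
      have hsplit : rho α t = rho α t ^ (1 - θ) * rho α t ^ θ := by
        rw [← Real.rpow_add hρ0]
        simp
      have hlow : -(1 / 2) ≤ rho α t * y := by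
        have h1 : rho α t * y = rho α t ^ (1 - θ) * (rho α t ^ θ * y) := by
          conv_lhs => rw [hsplit]
          ring
        rw [h1]
        have h2 : 0 < rho α t ^ (1 - θ) := Real.rpow_pos_of_pos hρ0 _
        nlinarith
      have hx : sig α t + lam α t * y = sig α t * (1 + rho α t * y) := by
        rw [hle0]; ring
      have hO : chO (sig α t + lam α t * y) = 1 := by
        rw [hx]
        apply chO_one
        · nlinarith
        · nlinarith
      have hin := hI α h0 h1 h2 h3 p J n hD.a_pos hD.a_lt hD.aux t y ht0 (by linarith)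
        (abs_le.mpr ⟨hlow, hy⟩)
      simp only [vin, Gg, hO, hin]
      ring
  · intro y hy
    have hL : chL (rho α t ^ θ * y) = 1 := chL_one hy
    have hL2 : chL (rho α t ^ ((1 : ℝ) / 2) * y) = 1 := by
      apply chL_one
      rcases le_total 0 y with h | h
      · have : 0 ≤ rho α t ^ ((1 : ℝ) / 2) * y := mul_nonneg (Real.rpow_nonneg hρ0.le _) h
        linarith
      · have : rho α t ^ θ * y ≤ rho α t ^ ((1 : ℝ) / 2) * y :=
          mul_le_mul_of_nonpos_right hle h
        linarith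
    simp only [vin, hL, hL2]
    ring

end Pool.Agent.Helper41.KV
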